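import Pool.Agent.Helper78.TW.StA

/-!
# Project TW, module NIL: nilpotency of `T_3`, `T_5` modulo `2`
-/

set_option autoImplicit false

namespace Pool.Agent.Helper21.TW

open Pool.Agent.Helper14.CV Pool.Agent.Helper28.WK Pool.Agent.Helper78.TW

section gen

variable {R R' : Type} [AddCommGroup R] [AddCommGroup R']

/-! ### Change of the coefficient group -/

private theorem Tl_map (φ : R →+ R') (l : ℕ) (m : ℤ) (G : ℤ → ℤ → R) :
    Tl l m (fun p q => φ (G p q)) = fun p q => φ (Tl l m G p q) := by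
  funext p q
  simp only [Tl, map_add, map_sum]

private theorem Tl_iter_map (φ : R →+ R') (l : ℕ) (m : ℤ) (i : ℕ) (G : ℤ → ℤ → R) :
    (Tl l m)^[i] (fun p q => φ (G p q)) = fun p q => φ ((Tl l m)^[i] G p q) := by
  induction i generalizing G with
  | zero => rfl
  | succ i ih =>
    rw [Function.iterate_succ_apply, Function.iterate_succ_apply, Tl_map, ih]

private theorem ev_map (φ : R →+ R') (m : ℤ) (G : ℤ → ℤ → R) (i j : ℕ) :
    ev m (fun p q => φ (G p q)) i j = φ (ev m G i j) := by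
  simp only [ev, Tl_iter_map, map_sub]

private theorem Sym_map (φ : R →+ R') {r s : ℕ} {G : ℤ → ℤ → R} (h : Sym r s G) :
    Sym r s (fun p q => φ (G p q)) := by
  refine ⟨fun k p q hk hpq => congrArg φ (h.1 k p q hk hpq), fun a b c d hd hb hc => ?_⟩
  obtain ⟨z, hz⟩ := h.2 a b c d hd hb hc
  refine ⟨φ z, fun p q hpq => ?_⟩
  have := hz p q hpq
  simp only [act] at this ⊢
  rw [this, map_add]

/-! ### Transport between the levels `(0, r + s)` and `(r, s)` -/

/-- The potential `G(2^r p, q)`. -/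
private def Go (r : ℕ) (G : ℤ → ℤ → R) : ℤ → ℤ → R := fun p q => G (2 ^ r * p) q

omit [AddCommGroup R'] in
private theorem Tl_Go (l r : ℕ) (G : ℤ → ℤ → R) : Tl l 1 (Go r G) = Go r (Tl l (2 ^ r) G) := by
  funext p q
  simp only [Tl, Go]
  congr 1
  · congr 1
    ring
  · refine Finset.sum_congr rfl ?_
    intro j _
    congr 1
    ring

private theorem iter_Go (l r : ℕ) (G : ℤ → ℤ → R) (i : ℕ) :
    (Tl l 1)^[i] (Go r G) = Go r ((Tl l (2 ^ r))^[i] G) := by
  induction i with
  | zero => rfl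
  | succ i ih => rw [Function.iterate_succ_apply', Function.iterate_succ_apply', ih, Tl_Go]

private theorem homog_Tl {G : ℤ → ℤ → R} (l : ℕ) (hl : 0 < l) (m : ℤ) (h : Homog G) :
    Homog (Tl l m G) := by
  intro k p q hk hpq
  have hl0 : (l : ℤ) ≠ 0 := by exact_mod_cast hl.ne'
  simp only [Tl]
  congr 1
  · have e := h k (l * p) q hk (by
      rcases hpq with h0 | h0
      · exact Or.inl (mul_ne_zero hl0 h0)
      · exact Or.inr h0)
    rw [← e]
    congr 1
    ring
  · refine Finset.sum_congr rfl ?_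
    intro j _
    have e := h k (p + m * j * q) (l * q) hk (by
      by_cases hq : q = 0
      · left
        rcases hpq with h0 | h0
        · rw [hq, mul_zero, add_zero]
          exact h0
        · exact absurd hq h0
      · exact Or.inr (mul_ne_zero hl0 hq))
    rw [← e]
    congr 1
    · ring
    · ring

private theorem iter_homog {G : ℤ → ℤ → R} (l : ℕ) (hl : 0 < l) (m : ℤ) (h : Homog G) (i : ℕ) :
    Homog ((Tl l m)^[i] G) := by
  induction i with
  | zero => exact h
  | succ i ih =>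
    rw [Function.iterate_succ_apply']
    exact homog_Tl l hl m ih

private theorem ev_Go (r : ℕ) (G : ℤ → ℤ → R) (hG : Homog G) (i j : ℕ) :
    ev 1 (Go r G) i j = ev (2 ^ r) G i j := by
  unfold ev
  rw [iter_Go, iter_Go]
  have hH : Homog ((Tl 3 (2 ^ r))^[i] ((Tl 5 (2 ^ r))^[j] G)) :=
    iter_homog 3 (by norm_num) _ (iter_homog 5 (by norm_num) _ hG j) i
  have e := hH (2 ^ r) 1 0 (by positivity) (Or.inl one_ne_zero)
  rw [mul_zero] at e
  simp only [Go]
  rw [mul_zero, e]

/-- A symbol of level `(0, r + s)` gives one of level `(r, s)`. -/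
private theorem sym_down {r s n : ℕ} (hn : r + s = n) {H : ℤ → ℤ → R} (h : Sym 0 n H) :
    Sym r s (act 1 0 0 (2 ^ r) H) := by
  refine Sym.act h (by norm_num) ?_
  intro a b c d hd hb hc
  obtain ⟨b', rfl⟩ := hb
  obtain ⟨c', rfl⟩ := hc
  refine ⟨a, b', 2 ^ r * (2 ^ s * c'), d, ?_, ?_, ?_, ?_, ?_, ?_, ?_⟩
  · rw [← hd]; ring
  · simp
  · rw [← hn, pow_add]
    exact ⟨c', by ring⟩
  · ring
  · ring
  · ring
  · ring

private theorem ev_down {r s n : ℕ} (hn : r + s = n) {H : ℤ → ℤ → R} (h : Sym 0 n H)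
    (i j : ℕ) : ev 1 H i j = ev (2 ^ r) (act 1 0 0 (2 ^ r) H) i j := by
  rw [← ev_Go r _ (sym_down hn h).1]
  refine ev_congr 1 (EqC.of_eq fun p q hpq => ?_) i j
  simp only [Go, act]
  rw [one_mul, zero_mul, zero_mul, add_zero, zero_add]
  exact (h.1 (2 ^ r) p q (by positivity) hpq).symm

end gen

private theorem core (hItr : StItr) (hLow : StLow0) (r s : ℕ) (hrs : 3 ≤ r + s)
    (h : ℤ → ℤ → ℤ) (hS : Sym 0 (r + 1 + (s + 1)) h) (i j : ℕ)
    (hij : 2 ^ r + 2 ^ s - 2 < 3 * i + 4 * j) : (2 : ℤ) ∣ ev 1 h i j := by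
  have h1 : ((ev 1 h i j : ℤ) : ZMod 2) = 0 := by
    have hb := Sym_map (Int.castAddHom (ZMod 2)) hS
    have e1 := ev_map (Int.castAddHom (ZMod 2)) 1 h i j
    rw [ev_down rfl hb] at e1
    have hG := sym_down rfl hb
    have hpos : 2 ≤ 2 ^ r + 2 ^ s := by
      have h2 := Nat.one_le_two_pow (n := r)
      have h3 := Nat.one_le_two_pow (n := s)
      omega
    have hmem := (hLow r s).2.2.2.2.2.2.2.2.2.2.1 (fun x y => edgeF 1 1 0 0 1
      (act 1 0 0 (2 ^ (r + 1)) (fun p q => Int.castAddHom (ZMod 2) (h p q))) x y)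
    have hcast : (((2 ^ r + 2 ^ s - 2 : ℕ) : ℤ)) = (2 : ℤ) ^ r + 2 ^ s - 2 := by
      push_cast [Nat.cast_sub hpos]
      ring
    rw [← hcast] at hmem
    have hz := (hItr r s _ _ (2 ^ r + 2 ^ s - 2) hrs hG (fun _ _ => rfl) hmem i j).1 hij
    rw [hz] at e1
    exact e1.symm
  have h2 := (ZMod.intCast_zmod_eq_zero_iff_dvd (ev 1 h i j) 2).mp h1
  exact_mod_cast h2

theorem hNil : StNil := by
  intro hItr hLow n hn h hS i j hij
  rcases Nat.even_or_odd' n with ⟨k, hk | hk⟩
  · obtain ⟨m, rfl⟩ : ∃ m, k = m + 1 := ⟨k - 1, by omega⟩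
    subst hk
    have e : 2 * (m + 1) = m + 1 + (m + 1) := by ring
    rw [e] at hS
    refine core hItr hLow m m (by omega) h hS i j ?_
    have e2 : 2 * (m + 1) / 2 + 1 = m + 2 := by omega
    rw [e2, pow_add] at hij
    omega
  · obtain ⟨m, rfl⟩ : ∃ m, k = m + 1 := ⟨k - 1, by omega⟩
    subst hk
    have e : 2 * (m + 1) + 1 = (m + 1) + 1 + (m + 1) := by ring
    rw [e] at hS
    refine core hItr hLow (m + 1) m (by omega) h hS i j ?_
    have e2 : (2 * (m + 1) + 1) / 2 + 1 = m + 2 := by omega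
    rw [e2, pow_add] at hij
    rw [pow_succ]
    omega

end Pool.Agent.Helper21.TW
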